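import Mathlib

/-!
# Block idempotents of tensor products
-/

set_option autoImplicit false
set_option linter.unusedSectionVars false

namespace Pool.Agent.Q222.BK

open TensorProduct

/-- `e` is a primitive idempotent of the centre of the ring `A` -/
structure IsBlock {A : Type} [Ring A] (e : A) : Prop where
  idem : IsIdempotentElem e
  central : ∀ x : A, x * e = e * x
  ne : e ≠ 0
  prim : ∀ f : A, IsIdempotentElem f → (∀ x : A, x * f = f * x) → f * e = 0 ∨ f * e = e

/-- the dimension of `Z(A) e` -/
noncomputable def num (k : Type) [Field k] {A : Type} [Ring A] [Algebra k A] (e : A) : ℕ :=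
  Module.finrank k (Submodule.map (LinearMap.mulRight k e) (Subalgebra.toSubmodule (Subalgebra.center k A)))

variable {k : Type} [Field k]

section one

variable {A : Type} [Ring A] [Algebra k A] [FiniteDimensional k A]

theorem pi_regular {e : A} (he : IsBlock e) (a : Subalgebra.center k A) :
    IsNilpotent ((a : A) * e) ∨ ∃ b : A, (∀ x : A, x * b = b * x) ∧ (a : A) * b * e = e := by
  have : IsArtinianRing (Subalgebra.center k A) := isArtinian_of_tower k inferInstance
  obtain ⟨n, y, hy⟩ := IsArtinian.exists_pow_succ_smul_dvd a (1 : Subalgebra.center k A)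
  have hy' : a ^ n = a ^ (n + 1) * y := by
    have := hy.symm
    simpa [smul_eq_mul] using this
  have key : ∀ m : ℕ, a ^ n = a ^ (n + m) * y ^ m := by
    intro m
    induction m with
    | zero => simp
    | succ m ih =>
      calc a ^ n = a ^ (n + m) * y ^ m := ih
        _ = a ^ m * y ^ m * a ^ n := by ring
        _ = a ^ m * y ^ m * (a ^ (n + 1) * y) := by rw [← hy']
        _ = a ^ (n + (m + 1)) * y ^ (m + 1) := by ring
  have hg : IsIdempotentElem (a ^ n * y ^ n) := by
    show a ^ n * y ^ n * (a ^ n * y ^ n) = a ^ n * y ^ n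
    calc a ^ n * y ^ n * (a ^ n * y ^ n) = (a ^ (n + n) * y ^ n) * y ^ n := by ring
      _ = a ^ n * y ^ n := by rw [← key n]
  have hgA : IsIdempotentElem ((a ^ n * y ^ n : Subalgebra.center k A) : A) := by
    have := congrArg (Subtype.val) hg
    exact this
  have hc : ∀ (z : Subalgebra.center k A) (x : A), x * (z : A) = (z : A) * x := fun z x =>
    (Subalgebra.mem_center_iff.1 z.2 x)
  rcases he.prim _ hgA (hc _) with h | h
  · left
    refine ⟨n + 1, ?_⟩
    have h1 : ((a : A) * e) ^ (n + 1) = (a : A) ^ (n + 1) * e ^ (n + 1) :=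
      (show Commute (a : A) e from he.central (a : A)).mul_pow _
    have h2 : e ^ (n + 1) = e := he.idem.pow_succ_eq n
    rw [h1, h2]
    have h3 : (a : A) ^ n * e = 0 := by
      have h4 : (a : A) ^ n = (a : A) ^ n * ((a ^ n * y ^ n : Subalgebra.center k A) : A) := by
        have h5 : a ^ n = a ^ n * (a ^ n * y ^ n) := by
          calc a ^ n = a ^ (n + n) * y ^ n := key n
            _ = a ^ n * (a ^ n * y ^ n) := by ring
        have := congrArg (Subtype.val) h5
        simpa using this
      rw [h4, mul_assoc, h, mul_zero]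
    rw [pow_succ', mul_assoc, h3, mul_zero]
  · right
    refine ⟨((a ^ n * y ^ (n + 1) : Subalgebra.center k A) : A), hc _, ?_⟩
    have h5 : a * (a ^ n * y ^ (n + 1)) = a ^ n * y ^ n := by
      calc a * (a ^ n * y ^ (n + 1)) = (a ^ (n + 1) * y) * y ^ n := by ring
        _ = a ^ n * y ^ n := by rw [← hy']
    have h6 : (a : A) * ((a ^ n * y ^ (n + 1) : Subalgebra.center k A) : A) =
        ((a ^ n * y ^ n : Subalgebra.center k A) : A) := by
      rw [← h5]
      rfl
    rw [h6]
    exact h

/-- every central element is a scalar plus a nilpotent element on a block -/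
theorem scalar [IsAlgClosed k] {e : A} (he : IsBlock e) (z : Subalgebra.center k A) :
    ∃ c : k, IsNilpotent (((z : A) - algebraMap k A c) * e) := by
  set V := Submodule.map (LinearMap.mulRight k e) (Subalgebra.toSubmodule (Subalgebra.center k A)) with hV
  have hc : ∀ (z : Subalgebra.center k A) (x : A), x * (z : A) = (z : A) * x := fun z x =>
    (Subalgebra.mem_center_iff.1 z.2 x)
  have hV1 : ∀ v ∈ V, (z : A) * v ∈ V := by
    rintro v ⟨w, hw, rfl⟩
    refine ⟨(z : A) * w, ?_, ?_⟩
    · exact (Subalgebra.center k A).mul_mem z.2 hw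
    · simp [LinearMap.mulRight_apply, mul_assoc]
  have hV2 : ∀ v ∈ V, v * e = v := by
    rintro v ⟨w, hw, rfl⟩
    simp only [LinearMap.mulRight_apply, mul_assoc]
    rw [he.idem]
  have heV : e ∈ V := ⟨1, (Subalgebra.center k A).one_mem, by simp⟩
  have : Nontrivial V := ⟨⟨⟨e, heV⟩, 0, fun h => he.ne (congrArg Subtype.val h)⟩⟩
  obtain ⟨c, hc'⟩ := Module.End.exists_eigenvalue ((LinearMap.mulLeft k (z : A)).restrict hV1)
  obtain ⟨v, hv⟩ := hc'.exists_hasEigenvector
  refine ⟨c, ?_⟩
  have hv1 : (z : A) * (v : A) = c • (v : A) := by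
    have := congrArg Subtype.val hv.apply_eq_smul
    exact this
  have hv2 : (v : A) ≠ 0 := fun h => hv.2 (Subtype.ext h)
  have hz : ((z : A) - algebraMap k A c) = ((z - algebraMap k _ c : Subalgebra.center k A) : A) := by
    simp
  rw [hz]
  rcases pi_regular he (z - algebraMap k _ c : Subalgebra.center k A) with h | ⟨b, hb, h⟩
  · exact h
  · exfalso
    apply hv2
    rw [← hz] at h
    have h0 : ((z : A) - algebraMap k A c) * (v : A) = 0 := by
      rw [sub_mul, hv1, Algebra.smul_def, sub_self]
    have h1 : (v : A) * ((z : A) - algebraMap k A c) = 0 := by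
      rw [hz, hc, ← hz, h0]
    calc (v : A) = (v : A) * e := (hV2 _ v.2).symm
      _ = (v : A) * (((z : A) - algebraMap k A c) * b * e) := by rw [h]
      _ = (v : A) * ((z : A) - algebraMap k A c) * b * e := by simp only [mul_assoc]
      _ = 0 := by rw [h1, zero_mul, zero_mul]

end one

section two

variable {A B : Type} [Ring A] [Algebra k A] [FiniteDimensional k A] [Ring B] [Algebra k B] [FiniteDimensional k B]

theorem map_two (u : (Subalgebra.center k A) ⊗[k] (Subalgebra.center k B)) :
    Algebra.TensorProduct.map (Subalgebra.center k A).val (Subalgebra.center k B).val u =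
      Algebra.TensorProduct.map (Subalgebra.center k A).val (AlgHom.id k B)
        (Algebra.TensorProduct.map (AlgHom.id k (Subalgebra.center k A)) (Subalgebra.center k B).val u) := by
  induction u using TensorProduct.induction_on with
  | zero => simp
  | tmul a b => simp
  | add x y hx hy => rw [map_add, map_add, map_add, hx, hy]

theorem mem_center_tensor (w : A ⊗[k] B) (hw : ∀ x, x * w = w * x) :
    ∃ u : (Subalgebra.center k A) ⊗[k] (Subalgebra.center k B),
      Algebra.TensorProduct.map (Subalgebra.center k A).val (Subalgebra.center k B).val u = w := by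
  have h1 : w ∈ Subalgebra.centralizer k ((Algebra.TensorProduct.includeLeft : A →ₐ[k] A ⊗[k] B).range : Set _) := by
    rw [Subalgebra.mem_centralizer_iff]
    intro g _
    exact hw g
  rw [Subalgebra.centralizer_coe_range_includeLeft_eq_center_tensorProduct] at h1
  obtain ⟨w', rfl⟩ := h1
  have hinj : Function.Injective (Algebra.TensorProduct.map (Subalgebra.center k A).val (AlgHom.id k B)) := by
    have := TensorProduct.map_injective_of_flat_flat (R := k) (Subalgebra.center k A).val.toLinearMap
      (AlgHom.id k B).toLinearMap Subtype.val_injective (fun _ _ h => h)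
    exact this
  have h2 : w' ∈ Subalgebra.centralizer k
      ((Algebra.TensorProduct.includeRight : B →ₐ[k] (Subalgebra.center k A) ⊗[k] B).range : Set _) := by
    rw [Subalgebra.mem_centralizer_iff]
    rintro _ ⟨b, rfl⟩
    apply hinj
    simp only [map_mul]
    exact hw _
  rw [Subalgebra.centralizer_range_includeRight_eq_center_tensorProduct] at h2
  obtain ⟨u, rfl⟩ := h2
  exact ⟨u, map_two u⟩

theorem tmul_ne_zero {e : A} {f : B} (he : e ≠ 0) (hf : f ≠ 0) : e ⊗ₜ[k] f ≠ 0 := by
  have hinj := TensorProduct.map_injective_of_flat_flat (R := k) (LinearMap.toSpanSingleton k A e)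
    (LinearMap.toSpanSingleton k B f)
    (LinearMap.ker_eq_bot.1 (LinearMap.ker_toSpanSingleton k he))
    (LinearMap.ker_eq_bot.1 (LinearMap.ker_toSpanSingleton k hf))
  intro h
  have h1 : TensorProduct.map (LinearMap.toSpanSingleton k A e) (LinearMap.toSpanSingleton k B f) (1 ⊗ₜ[k] 1) = 0 := by
    simpa using h
  rw [map_eq_zero_iff _ hinj] at h1
  have h2 := congrArg (TensorProduct.lid k k) h1
  simp at h2

/-- **Tensor products of blocks.** -/
theorem IsBlock.tmul [IsAlgClosed k] {e : A} {f : B} (he : IsBlock e) (hf : IsBlock f) :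
    IsBlock (e ⊗ₜ[k] f) := by
  have hE : IsIdempotentElem (e ⊗ₜ[k] f) := by
    show e ⊗ₜ[k] f * e ⊗ₜ[k] f = e ⊗ₜ[k] f
    rw [Algebra.TensorProduct.tmul_mul_tmul, he.idem, hf.idem]
  have hEc : ∀ x, x * (e ⊗ₜ[k] f) = (e ⊗ₜ[k] f) * x := by
    intro x
    induction x using TensorProduct.induction_on with
    | zero => simp
    | tmul a b => rw [Algebra.TensorProduct.tmul_mul_tmul, Algebra.TensorProduct.tmul_mul_tmul, he.central, hf.central]
    | add x y hx hy => rw [add_mul, mul_add, hx, hy]
  have hEne : e ⊗ₜ[k] f ≠ 0 := tmul_ne_zero he.ne hf.ne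
  have hcA : ∀ (z : Subalgebra.center k A) (x : A), x * (z : A) = (z : A) * x := fun z x =>
    (Subalgebra.mem_center_iff.1 z.2 x)
  have hcB : ∀ (z : Subalgebra.center k B) (x : B), x * (z : B) = (z : B) * x := fun z x =>
    (Subalgebra.mem_center_iff.1 z.2 x)
  -- central elements are scalars plus nilpotents
  have key : ∀ u : (Subalgebra.center k A) ⊗[k] (Subalgebra.center k B),
      (∀ x, x * Algebra.TensorProduct.map (Subalgebra.center k A).val (Subalgebra.center k B).val u =
        Algebra.TensorProduct.map (Subalgebra.center k A).val (Subalgebra.center k B).val u * x) ∧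
      ∃ c : k, IsNilpotent ((Algebra.TensorProduct.map (Subalgebra.center k A).val (Subalgebra.center k B).val u -
        algebraMap k _ c) * (e ⊗ₜ[k] f)) := by
    intro u
    induction u using TensorProduct.induction_on with
    | zero =>
      refine ⟨fun x => by simp, 0, ?_⟩
      simp
    | tmul a b =>
      have hcen : ∀ x, x * ((a : A) ⊗ₜ[k] (b : B)) = ((a : A) ⊗ₜ[k] (b : B)) * x := by
        intro x
        induction x using TensorProduct.induction_on with
        | zero => simp
        | tmul c d => rw [Algebra.TensorProduct.tmul_mul_tmul, Algebra.TensorProduct.tmul_mul_tmul, hcA, hcB]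
        | add x y hx hy => rw [add_mul, mul_add, hx, hy]
      obtain ⟨c, hc⟩ := scalar he a
      obtain ⟨d, hd⟩ := scalar hf b
      refine ⟨hcen, c * d, ?_⟩
      have e1 : ((a : A) ⊗ₜ[k] (b : B) - algebraMap k (A ⊗[k] B) (c * d)) * (e ⊗ₜ[k] f) =
          (((a : A) - algebraMap k A c) * e) ⊗ₜ[k] ((b : B) * f) +
            (algebraMap k A c * e) ⊗ₜ[k] (((b : B) - algebraMap k B d) * f) := by
        have e2 : algebraMap k (A ⊗[k] B) (c * d) = (algebraMap k A c) ⊗ₜ[k] (algebraMap k B d) := by
          rw [Algebra.TensorProduct.algebraMap_apply, map_mul, Algebra.algebraMap_eq_smul_one (A := B),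
            TensorProduct.tmul_smul, TensorProduct.smul_tmul', Algebra.smul_def, ← map_mul, ← map_mul, mul_comm]
        rw [e2, sub_mul, Algebra.TensorProduct.tmul_mul_tmul, Algebra.TensorProduct.tmul_mul_tmul, sub_mul, sub_mul,
          TensorProduct.sub_tmul, TensorProduct.tmul_sub]
        abel
      have hn1 : IsNilpotent ((((a : A) - algebraMap k A c) * e) ⊗ₜ[k] ((b : B) * f)) := by
        obtain ⟨n, hn⟩ := hc
        exact ⟨n, by rw [Algebra.TensorProduct.tmul_pow, hn, TensorProduct.zero_tmul]⟩
      have hn2 : IsNilpotent ((algebraMap k A c * e) ⊗ₜ[k] (((b : B) - algebraMap k B d) * f)) := by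
        obtain ⟨n, hn⟩ := hd
        exact ⟨n, by rw [Algebra.TensorProduct.tmul_pow, hn, TensorProduct.tmul_zero]⟩
      simp only [Algebra.TensorProduct.map_tmul, Subalgebra.coe_val]
      rw [e1]
      refine Commute.isNilpotent_add ?_ hn1 hn2
      have hA : ∀ x : A, x * (algebraMap k A c * e) = (algebraMap k A c * e) * x := by
        intro x
        rw [← mul_assoc, ← Algebra.commutes, mul_assoc, he.central, mul_assoc]
      have hB : ∀ x : B, x * ((b : B) * f) = ((b : B) * f) * x := by
        intro x
        rw [← mul_assoc, hcB, mul_assoc, hf.central, mul_assoc]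
      show _ * _ = _ * _
      rw [Algebra.TensorProduct.tmul_mul_tmul, Algebra.TensorProduct.tmul_mul_tmul, hA, ← hB]
    | add x y hx hy =>
      obtain ⟨h1, c, hc⟩ := hx
      obtain ⟨h2, d, hd⟩ := hy
      refine ⟨fun z => by rw [map_add, mul_add, add_mul, h1, h2], c + d, ?_⟩
      rw [map_add, map_add, add_sub_add_comm, add_mul]
      refine Commute.isNilpotent_add ?_ hc hd
      have h3 : ∀ z, z * ((Algebra.TensorProduct.map (Subalgebra.center k A).val (Subalgebra.center k B).val x -
          algebraMap k _ c) * (e ⊗ₜ[k] f)) =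
          ((Algebra.TensorProduct.map (Subalgebra.center k A).val (Subalgebra.center k B).val x -
          algebraMap k _ c) * (e ⊗ₜ[k] f)) * z := by
        intro z
        rw [← mul_assoc, mul_sub, h1, ← Algebra.commutes, ← sub_mul, mul_assoc, hEc, mul_assoc]
      exact (h3 _).symm
  refine ⟨hE, hEc, hEne, fun g hg hgc => ?_⟩
  obtain ⟨u, hu⟩ := mem_center_tensor g hgc
  obtain ⟨-, c, n, hn⟩ := key u
  rw [hu] at hn
  rcases eq_or_ne c 0 with rfl | hc
  · left
    rw [map_zero, sub_zero] at hn
    have h1 : IsIdempotentElem (g * (e ⊗ₜ[k] f)) := by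
      show g * (e ⊗ₜ[k] f) * (g * (e ⊗ₜ[k] f)) = g * (e ⊗ₜ[k] f)
      rw [← mul_assoc, mul_assoc g, hgc, ← mul_assoc, hg, mul_assoc, hE]
    have h2 := h1.pow_succ_eq n
    rw [pow_succ, hn, zero_mul] at h2
    exact h2.symm
  · right
    set E := e ⊗ₜ[k] f with hEdef
    set h := (1 - g) * E with hh
    have hgh : g * h = 0 := by
      rw [hh, ← mul_assoc, mul_sub, mul_one, hg, sub_self, zero_mul]
    have hEh : E * h = h := by
      rw [hh, ← mul_assoc, ← hEc, mul_assoc, hE]
    have h1 : (g - algebraMap k _ c) * E * h = -(c • h) := by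
      rw [mul_assoc, hEh, sub_mul, hgh, zero_sub, Algebra.smul_def]
    have h2 : ∀ m : ℕ, ((g - algebraMap k _ c) * E) ^ m * h = (-c) ^ m • h := by
      intro m
      induction m with
      | zero => simp
      | succ m ih =>
        rw [pow_succ, mul_assoc, h1, mul_neg, mul_smul_comm, ih, pow_succ, smul_smul, ← neg_smul]
        congr 1
        ring
    have h3 := h2 n
    rw [hn, zero_mul] at h3
    have h4 : h = 0 := by
      rcases smul_eq_zero.1 h3.symm with h5 | h5
      · exact absurd h5 (pow_ne_zero n (neg_ne_zero.2 hc))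
      · exact h5
    rw [hh, sub_mul, one_mul, sub_eq_zero] at h4
    exact h4.symm

theorem num_tmul (e : A) (f : B) :
    num k (e ⊗ₜ[k] f) = num k e * num k f := by
  set φ : (Subalgebra.center k A) →ₗ[k] A := LinearMap.mulRight k e ∘ₗ (Subalgebra.center k A).val.toLinearMap with hφ
  set ψ : (Subalgebra.center k B) →ₗ[k] B := LinearMap.mulRight k f ∘ₗ (Subalgebra.center k B).val.toLinearMap with hψ
  have e1 : Submodule.map (LinearMap.mulRight k (e ⊗ₜ[k] f))
      (Subalgebra.toSubmodule (Subalgebra.center k (A ⊗[k] B))) = LinearMap.range (TensorProduct.map φ ψ) := by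
    have e2 : ∀ u, TensorProduct.map φ ψ u =
        Algebra.TensorProduct.map (Subalgebra.center k A).val (Subalgebra.center k B).val u * (e ⊗ₜ[k] f) := by
      intro u
      induction u using TensorProduct.induction_on with
      | zero => simp
      | tmul a b => simp [hφ, hψ]
      | add x y hx hy => rw [map_add, map_add, hx, hy, add_mul]
    ext w
    constructor
    · rintro ⟨z, hz, rfl⟩
      have hz' : z ∈ Subalgebra.center k (A ⊗[k] B) := hz
      obtain ⟨u, hu⟩ := mem_center_tensor z (fun x => Subalgebra.mem_center_iff.1 hz' x)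
      exact ⟨u, by rw [e2, hu]; rfl⟩
    · rintro ⟨u, rfl⟩
      refine ⟨Algebra.TensorProduct.map (Subalgebra.center k A).val (Subalgebra.center k B).val u, ?_, ?_⟩
      · rw [SetLike.mem_coe, Subalgebra.mem_toSubmodule, Subalgebra.mem_center_iff]
        intro x
        induction u using TensorProduct.induction_on with
        | zero => rw [map_zero, mul_zero, zero_mul]
        | tmul a b =>
          simp only [Algebra.TensorProduct.map_tmul, Subalgebra.coe_val]
          induction x using TensorProduct.induction_on with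
          | zero => simp
          | tmul c d =>
            rw [Algebra.TensorProduct.tmul_mul_tmul, Algebra.TensorProduct.tmul_mul_tmul,
              Subalgebra.mem_center_iff.1 a.2, Subalgebra.mem_center_iff.1 b.2]
          | add x y hx hy => rw [add_mul, mul_add, hx, hy]
        | add x y hx hy => rw [map_add, mul_add, add_mul, hx, hy]
      · rw [e2]; rfl
  have e3 : TensorProduct.map φ ψ = (TensorProduct.map (LinearMap.range φ).subtype (LinearMap.range ψ).subtype) ∘ₗ
      (TensorProduct.map φ.rangeRestrict ψ.rangeRestrict) := by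
    rw [← TensorProduct.map_comp]
    rfl
  have e4 : LinearMap.range φ = Submodule.map (LinearMap.mulRight k e)
      (Subalgebra.toSubmodule (Subalgebra.center k A)) := by
    ext w
    constructor
    · rintro ⟨z, rfl⟩
      exact ⟨z, z.2, rfl⟩
    · rintro ⟨z, hz, rfl⟩
      exact ⟨⟨z, hz⟩, rfl⟩
  have e5 : LinearMap.range ψ = Submodule.map (LinearMap.mulRight k f)
      (Subalgebra.toSubmodule (Subalgebra.center k B)) := by
    ext w
    constructor
    · rintro ⟨z, rfl⟩
      exact ⟨z, z.2, rfl⟩
    · rintro ⟨z, hz, rfl⟩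
      exact ⟨⟨z, hz⟩, rfl⟩
  have e6 : LinearMap.range (TensorProduct.map φ ψ) =
      LinearMap.range (TensorProduct.map (LinearMap.range φ).subtype (LinearMap.range ψ).subtype) := by
    rw [e3, LinearMap.range_comp_of_range_eq_top]
    exact LinearMap.range_eq_top.2 (TensorProduct.map_surjective φ.surjective_rangeRestrict ψ.surjective_rangeRestrict)
  unfold num
  rw [e1, e6, ← e4, ← e5, LinearMap.finrank_range_of_inj, Module.finrank_tensorProduct]
  exact TensorProduct.map_injective_of_flat_flat _ _ (Submodule.subtype_injective _) (Submodule.subtype_injective _)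

end two

end Pool.Agent.Q222.BK
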