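import Pool.Agent.Q222.BK.Alg

/-!
# Blocks of direct products of finite groups
-/

set_option autoImplicit false
set_option linter.unusedSectionVars false

namespace Pool.Agent.Q222.BK

open TensorProduct

section transport

variable {k : Type} [Field k] {A C : Type} [Ring A] [Algebra k A] [Ring C] [Algebra k C]

theorem IsBlock.map {e : A} (he : IsBlock e) (Φ : A ≃ₐ[k] C) : IsBlock (Φ e) := by
  refine ⟨?_, fun x => ?_, fun h => he.ne (by simpa using h), fun f hf hfc => ?_⟩
  · show Φ e * Φ e = Φ e
    rw [← map_mul, he.idem]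
  · obtain ⟨y, rfl⟩ := Φ.surjective x
    rw [← map_mul, ← map_mul, he.central]
  · obtain ⟨g, rfl⟩ := Φ.surjective f
    have h1 : IsIdempotentElem g := by
      apply Φ.injective
      rw [map_mul]
      exact hf
    have h2 : ∀ x, x * g = g * x := fun x => by
      apply Φ.injective
      rw [map_mul, map_mul]
      exact hfc _
    rcases he.prim g h1 h2 with h | h
    · left
      rw [← map_mul, h, map_zero]
    · right
      rw [← map_mul, h]

theorem num_map (e : A) (Φ : A ≃ₐ[k] C) : num k (Φ e) = num k e := by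
  have h : Submodule.map (LinearMap.mulRight k (Φ e)) (Subalgebra.toSubmodule (Subalgebra.center k C)) =
      Submodule.map Φ.toLinearEquiv.toLinearMap
        (Submodule.map (LinearMap.mulRight k e) (Subalgebra.toSubmodule (Subalgebra.center k A))) := by
    ext w
    constructor
    · rintro ⟨z, hz, rfl⟩
      have hz' : z ∈ Subalgebra.center k C := hz
      refine ⟨Φ.symm z * e, ⟨Φ.symm z, ?_, rfl⟩, ?_⟩
      · show Φ.symm z ∈ Subalgebra.center k A
        rw [Subalgebra.mem_center_iff]
        intro x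
        apply Φ.injective
        rw [map_mul, map_mul, AlgEquiv.apply_symm_apply]
        exact Subalgebra.mem_center_iff.1 hz' _
      · show Φ (Φ.symm z * e) = z * Φ e
        rw [map_mul, AlgEquiv.apply_symm_apply]
    · rintro ⟨_, ⟨z, hz, rfl⟩, rfl⟩
      have hz' : z ∈ Subalgebra.center k A := hz
      refine ⟨Φ z, ?_, ?_⟩
      · show Φ z ∈ Subalgebra.center k C
        rw [Subalgebra.mem_center_iff]
        intro x
        obtain ⟨y, rfl⟩ := Φ.surjective x
        rw [← map_mul, ← map_mul, Subalgebra.mem_center_iff.1 hz']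
      · show Φ z * Φ e = Φ (z * e)
        rw [map_mul]
  unfold num
  rw [h]
  exact LinearEquiv.finrank_map_eq Φ.toLinearEquiv _

end transport

variable {k : Type} [Field k] {G H : Type} [Group G] [Group H]

theorem comm_inl_inr (a : MonoidAlgebra k G) (b : MonoidAlgebra k H) :
    Commute (MonoidAlgebra.mapDomainAlgHom k k (MonoidHom.inl G H) a)
      (MonoidAlgebra.mapDomainAlgHom k k (MonoidHom.inr G H) b) := by
  induction a using MonoidAlgebra.induction_linear with
  | zero => rw [map_zero]; exact Commute.zero_left _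
  | add x y hx hy => rw [map_add]; exact hx.add_left hy
  | single g r =>
    induction b using MonoidAlgebra.induction_linear with
    | zero => rw [map_zero]; exact Commute.zero_right _
    | add x y hx hy => rw [map_add]; exact hx.add_right hy
    | single h s =>
      show _ * _ = _ * _
      simp [MonoidAlgebra.single_mul_single, mul_comm]

/-- the homomorphism `k[G] ⊗ k[H] → k[G × H]` -/
noncomputable def prodHom (k : Type) [Field k] (G H : Type) [Group G] [Group H] :
    (MonoidAlgebra k G) ⊗[k] (MonoidAlgebra k H) →ₐ[k] MonoidAlgebra k (G × H) :=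
  Algebra.TensorProduct.lift (MonoidAlgebra.mapDomainAlgHom k k (MonoidHom.inl G H))
    (MonoidAlgebra.mapDomainAlgHom k k (MonoidHom.inr G H)) comm_inl_inr

theorem prodHom_tmul (a : MonoidAlgebra k G) (b : MonoidAlgebra k H) :
    prodHom k G H (a ⊗ₜ b) = MonoidAlgebra.mapDomainAlgHom k k (MonoidHom.inl G H) a *
      MonoidAlgebra.mapDomainAlgHom k k (MonoidHom.inr G H) b := by
  unfold prodHom
  rw [Algebra.TensorProduct.lift_tmul]

theorem prodHom_eq (u : (MonoidAlgebra k G) ⊗[k] (MonoidAlgebra k H)) :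
    prodHom k G H u = MonoidAlgebra.tensorEquiv k u := by
  induction u using TensorProduct.induction_on with
  | zero => simp
  | add x y hx hy => rw [map_add, map_add, hx, hy]
  | tmul a b =>
    induction a using MonoidAlgebra.induction_linear with
    | zero => simp
    | add x y hx hy => rw [TensorProduct.add_tmul, map_add, map_add, hx, hy]
    | single g r =>
      induction b using MonoidAlgebra.induction_linear with
      | zero => simp
      | add x y hx hy => rw [TensorProduct.tmul_add, map_add, map_add, hx, hy]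
      | single h s =>
        rw [prodHom_tmul, MonoidAlgebra.tensorEquiv_single_tmul_single]
        simp [MonoidAlgebra.single_mul_single]

/-- the isomorphism `k[G] ⊗ k[H] ≃ k[G × H]` -/
noncomputable def prodEquiv (k : Type) [Field k] (G H : Type) [Group G] [Group H] :
    (MonoidAlgebra k G) ⊗[k] (MonoidAlgebra k H) ≃ₐ[k] MonoidAlgebra k (G × H) :=
  AlgEquiv.ofBijective (prodHom k G H) (by
    have : (prodHom k G H : _ → _) = MonoidAlgebra.tensorEquiv k := funext prodHom_eq
    rw [this]
    exact (MonoidAlgebra.tensorEquiv k).bijective)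

/-- `e = Tr_D^G(a)` for some `a` in the `D`-fixed points: the block is projective relative to `D` -/
def Traced (D : Subgroup G) (e : MonoidAlgebra k G) : Prop :=
  ∃ a : MonoidAlgebra k G, (∀ q ∈ D, MonoidAlgebra.of k G q * a = a * MonoidAlgebra.of k G q) ∧
    e = ∑ᶠ x : G ⧸ D, MonoidAlgebra.of k G (Quotient.out x) * a * MonoidAlgebra.of k G (Quotient.out x)⁻¹

theorem conj_eq {D : Subgroup G} {a : MonoidAlgebra k G}
    (ha : ∀ q ∈ D, MonoidAlgebra.of k G q * a = a * MonoidAlgebra.of k G q) {g g' : G}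
    (h : (g : G ⧸ D) = (g' : G ⧸ D)) :
    MonoidAlgebra.of k G g * a * MonoidAlgebra.of k G g⁻¹ = MonoidAlgebra.of k G g' * a * MonoidAlgebra.of k G g'⁻¹ := by
  obtain ⟨q, hq, rfl⟩ : ∃ q ∈ D, g' = g * q := ⟨g⁻¹ * g', QuotientGroup.eq.1 h, by group⟩
  rw [mul_inv_rev, map_mul, map_mul]
  calc MonoidAlgebra.of k G g * a * MonoidAlgebra.of k G g⁻¹
      = MonoidAlgebra.of k G g * (a * (MonoidAlgebra.of k G q * MonoidAlgebra.of k G q⁻¹)) * MonoidAlgebra.of k G g⁻¹ := by
        rw [← map_mul, mul_inv_cancel, map_one, mul_one]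
    _ = MonoidAlgebra.of k G g * (a * MonoidAlgebra.of k G q) * MonoidAlgebra.of k G q⁻¹ * MonoidAlgebra.of k G g⁻¹ := by
        simp only [mul_assoc]
    _ = MonoidAlgebra.of k G g * (MonoidAlgebra.of k G q * a) * MonoidAlgebra.of k G q⁻¹ * MonoidAlgebra.of k G g⁻¹ := by
        rw [ha q hq]
    _ = _ := by simp only [mul_assoc]

theorem Traced.prod [Finite G] [Finite H] {D : Subgroup G} {D' : Subgroup H} {e : MonoidAlgebra k G}
    {f : MonoidAlgebra k H} (he : Traced D e) (hf : Traced D' f) : Traced (D.prod D') (prodEquiv k G H (e ⊗ₜ f)) := by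
  classical
  obtain ⟨a, ha, hae⟩ := he
  obtain ⟨b, hb, hbf⟩ := hf
  set L := MonoidAlgebra.mapDomainAlgHom k k (MonoidHom.inl G H) with hL
  set R := MonoidAlgebra.mapDomainAlgHom k k (MonoidHom.inr G H) with hR
  have hpe : ∀ (x : MonoidAlgebra k G) (y : MonoidAlgebra k H), prodEquiv k G H (x ⊗ₜ y) = L x * R y :=
    fun x y => prodHom_tmul x y
  have hof : ∀ g : G × H, MonoidAlgebra.of k (G × H) g = L (MonoidAlgebra.of k G g.1) * R (MonoidAlgebra.of k H g.2) := by
    intro g
    simp [hL, hR, MonoidAlgebra.of_apply, MonoidAlgebra.single_mul_single]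
  have hLR : ∀ x y, L x * R y = R y * L x := fun x y => comm_inl_inr x y
  have hmul : ∀ x y x' y', L x * R y * (L x' * R y') = L (x * x') * R (y * y') := by
    intro x y x' y'
    rw [map_mul, map_mul, mul_assoc, ← mul_assoc (R y), ← hLR x' y]
    simp only [mul_assoc]
  have hconj : ∀ g : G × H, MonoidAlgebra.of k (G × H) g * (L a * R b) * MonoidAlgebra.of k (G × H) g⁻¹ =
      L (MonoidAlgebra.of k G g.1 * a * MonoidAlgebra.of k G g.1⁻¹) *
        R (MonoidAlgebra.of k H g.2 * b * MonoidAlgebra.of k H g.2⁻¹) := by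
    intro g
    rw [hof g, hof g⁻¹, hmul, hmul]
    rfl
  have hcomm : ∀ q ∈ D.prod D', MonoidAlgebra.of k (G × H) q * (L a * R b) = (L a * R b) * MonoidAlgebra.of k (G × H) q := by
    intro q hq
    rw [hof q, hmul, hmul, ha _ hq.1, hb _ hq.2]
  refine ⟨L a * R b, hcomm, ?_⟩
  rw [hpe, hae, hbf]
  have : Fintype (G ⧸ D) := Fintype.ofFinite _
  have : Fintype (H ⧸ D') := Fintype.ofFinite _
  have : Fintype ((G × H) ⧸ (D.prod D')) := Fintype.ofFinite _
  rw [finsum_eq_sum_of_fintype, finsum_eq_sum_of_fintype, finsum_eq_sum_of_fintype, map_sum, map_sum,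
    Finset.sum_mul_sum, ← Finset.sum_product', Finset.univ_product_univ,
    ← (QuotientGroup.prodEquiv D D').symm.sum_comp]
  refine Finset.sum_congr rfl fun x _ => ?_
  obtain ⟨x1, x2⟩ := x
  rw [hconj]
  have h1 : ((Quotient.out ((QuotientGroup.prodEquiv D D').symm (x1, x2)) : G × H) : (G × H) ⧸ (D.prod D')) =
      (((Quotient.out x1, Quotient.out x2) : G × H) : (G × H) ⧸ (D.prod D')) := by
    rw [QuotientGroup.out_eq']
    apply (QuotientGroup.prodEquiv D D').injective
    rw [Equiv.apply_symm_apply]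
    simp
  have h2 := conj_eq hcomm h1
  rw [hconj, hconj] at h2
  exact h2.symm

/-- the order of a defect group of the block idempotent `e`: the least order of a subgroup `D` with `e ∈ Tr_D^G((kG)^D)` -/
noncomputable def defectOrder (e : MonoidAlgebra k G) : ℕ :=
  sInf {n | ∃ D : Subgroup G, Traced D e ∧ Nat.card D = n}

theorem traced_top [Finite G] {e : MonoidAlgebra k G} (he : ∀ x, x * e = e * x) : Traced ⊤ e := by
  refine ⟨e, fun q _ => he _, ?_⟩
  have h1 : Subsingleton (G ⧸ (⊤ : Subgroup G)) := QuotientGroup.subsingleton_quotient_top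
  have : Unique (G ⧸ (⊤ : Subgroup G)) := ⟨⟨((1 : G) : G ⧸ (⊤ : Subgroup G))⟩, fun x => Subsingleton.elim _ _⟩
  rw [finsum_unique, he, mul_assoc, ← map_mul, mul_inv_cancel, map_one, mul_one]

theorem exists_defect [Finite G] {e : MonoidAlgebra k G} (he : ∀ x, x * e = e * x) :
    ∃ D : Subgroup G, Traced D e ∧ Nat.card D = defectOrder e :=
  Nat.sInf_mem (s := {n | ∃ D : Subgroup G, Traced D e ∧ Nat.card D = n}) ⟨_, ⊤, traced_top he, rfl⟩

theorem defectOrder_le {D : Subgroup G} {e : MonoidAlgebra k G} (h : Traced D e) : defectOrder e ≤ Nat.card D :=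
  Nat.sInf_le ⟨D, h, rfl⟩

/-- powers of a block -/
theorem powers [IsAlgClosed k] (𝒞 : ∀ (G : Type) [Group G], Prop)
    (h𝒞 : ∀ (G H : Type) [Group G] [Group H] [Finite G] [Finite H], 𝒞 G → 𝒞 H → 𝒞 (G × H))
    [Finite G] (hG : 𝒞 G) {e : MonoidAlgebra k G} (he : IsBlock e) (n : ℕ) :
    ∃ (G' : Type) (_ : Group G') (_ : Finite G') (_ : 𝒞 G') (e' : MonoidAlgebra k G'), IsBlock e' ∧
      num k e' = num k e ^ (n + 1) ∧ defectOrder e' ≤ defectOrder e ^ (n + 1) ∧ Nat.card G' = Nat.card G ^ (n + 1) := by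
  induction n with
  | zero => exact ⟨G, _, inferInstance, hG, e, he, by simp, by simp, by simp⟩
  | succ n ih =>
    obtain ⟨G', _, _, hG', e', he', h1, h2, h3⟩ := ih
    refine ⟨G' × G, inferInstance, inferInstance, h𝒞 _ _ hG' hG, prodEquiv k G' G (e' ⊗ₜ e),
      (he'.tmul he).map _, ?_, ?_, ?_⟩
    · rw [num_map, num_tmul, h1, ← pow_succ]
    · obtain ⟨D', hD', hc'⟩ := exists_defect he'.central
      obtain ⟨D, hD, hc⟩ := exists_defect he.central
      refine (defectOrder_le (hD'.prod hD)).trans ?_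
      rw [Nat.card_congr (Subgroup.prodEquiv D' D).toEquiv, Nat.card_prod, hc', hc, pow_succ (defectOrder e) (n + 1)]
      exact Nat.mul_le_mul_right _ h2
    · rw [Nat.card_prod, h3, pow_succ (Nat.card G) (n + 1)]

end Pool.Agent.Q222.BK
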